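import Pool.Agent.Helper68.SK.Goals

/-!
PROJECT SK (MP_2b0227_gt), packet SK-CHAIN: merging of two variables of one-positive windows.
-/

namespace Pool.Agent.Helper23.SK

open Finset Pool.Agent.Helper52.C2 Pool.Agent.Helper68.SK

/-- expansion of the form at `v - t e` -/
theorem quad_sub {ι : Type} [Fintype ι] (M : ι → ι → ℝ) (hM : ∀ a b, M a b = M b a)
    (v e : ι → ℝ) (t : ℝ) :
    quad M (fun a => v a - t * e a) =
      quad M v - 2 * t * (∑ a, ∑ b, v a * M a b * e b) + t ^ 2 * quad M e := by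
  unfold quad
  have h : ∑ a, ∑ b, e a * M a b * v b = ∑ a, ∑ b, v a * M a b * e b := by
    rw [Finset.sum_comm]
    refine Finset.sum_congr rfl fun a _ => Finset.sum_congr rfl fun b _ => ?_
    rw [hM b a]; ring
  have h2 : ∑ a, ∑ b, (v a - t * e a) * M a b * (v b - t * e b) =
      ∑ a, ∑ b, v a * M a b * v b - t * (∑ a, ∑ b, v a * M a b * e b) -
        t * (∑ a, ∑ b, e a * M a b * v b) + t ^ 2 * ∑ a, ∑ b, e a * M a b * e b := by
    simp only [Finset.mul_sum, ← Finset.sum_sub_distrib, ← Finset.sum_add_distrib]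
    refine Finset.sum_congr rfl fun a _ => Finset.sum_congr rfl fun b _ => ?_
    ring
  rw [h2, h]; ring

/-- a one-positive form with entries `≥ 0` is `≤ 0` on the orthogonal complement of the vector
`1` of the allowed directions -/
theorem onePos_one {ι : Type} [Fintype ι] (ok : ι → Prop) (M : ι → ι → ℝ)
    (hM : ∀ a b, M a b = M b a) (h0 : ∀ a b, 0 ≤ M a b) (e : ι → ℝ)
    (he : ∀ a, ok a → e a = 1) (he' : ∀ a, ¬ ok a → e a = 0) (h : OnePos ok M) (v : ι → ℝ)
    (hv : ∀ a, ¬ ok a → v a = 0) (hve : ∑ a, ∑ b, v a * M a b * e b = 0) : quad M v ≤ 0 := by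
  obtain ⟨l, hl⟩ := h
  have he0 : ∀ a, 0 ≤ e a := fun a => by
    by_cases h : ok a
    · rw [he a h]; norm_num
    · rw [he' a h]
  have hq : 0 ≤ quad M e := Finset.sum_nonneg fun a _ => Finset.sum_nonneg fun b _ =>
    mul_nonneg (mul_nonneg (he0 a) (h0 a b)) (he0 b)
  rcases hq.lt_or_eq with hq | hq
  · have hle : ∑ a, l a * e a ≠ 0 := by
      intro h
      exact absurd (hl e he' h) (not_le.2 hq)
    have h1 := hl (fun a => v a - (∑ a, l a * v a) / (∑ a, l a * e a) * e a)
      (fun a ha => by simp [hv a ha, he' a ha]) (by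
        simp only [mul_sub, Finset.sum_sub_distrib]
        have : ∑ a, l a * ((∑ a, l a * v a) / (∑ a, l a * e a) * e a) =
            (∑ a, l a * v a) / (∑ a, l a * e a) * ∑ a, l a * e a := by
          rw [Finset.mul_sum]; exact Finset.sum_congr rfl fun a _ => by ring
        rw [this, div_mul_cancel₀ _ hle, sub_self])
    rw [quad_sub M hM, hve] at h1
    nlinarith [mul_nonneg (sq_nonneg ((∑ a, l a * v a) / (∑ a, l a * e a))) hq.le]
  · have h2 : ∀ a b, ok a → ok b → M a b = 0 := by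
      intro a b ha hb
      have h3 := (Finset.sum_eq_zero_iff_of_nonneg (fun a _ => Finset.sum_nonneg fun b _ =>
        mul_nonneg (mul_nonneg (he0 a) (h0 a b)) (he0 b))).1 hq.symm a (Finset.mem_univ a)
      have h4 := (Finset.sum_eq_zero_iff_of_nonneg (fun b _ =>
        mul_nonneg (mul_nonneg (he0 a) (h0 a b)) (he0 b))).1 h3 b (Finset.mem_univ b)
      rw [he a ha, he b hb] at h4
      linarith
    apply le_of_eq
    apply Finset.sum_eq_zero; intro a _
    apply Finset.sum_eq_zero; intro b _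
    by_cases ha : ok a
    · by_cases hb : ok b
      · rw [h2 a b ha hb]; ring
      · rw [hv b hb]; ring
    · rw [hv a ha]; ring

/-- shifted sums of functions supported on `[-N, N]` -/
theorem sum_shift (N : ℕ) (f : ℤ → ℝ) (hf : ∀ p, (N : ℤ) < |p| → f p = 0) (s : ℤ)
    (hs : |s| ≤ 3) :
    ∑ i ∈ Icc (-((N : ℤ) + 3)) ((N : ℤ) + 3), f (i + s) = ∑ p ∈ Icc (-(N : ℤ)) N, f p := by
  have hs' := abs_le.1 hs
  have h1 : ∑ i ∈ Icc (-((N : ℤ) + 3)) ((N : ℤ) + 3), f (i + s) =
      ∑ p ∈ Icc (-((N : ℤ) + 3) + s) ((N : ℤ) + 3 + s), f p := by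
    refine Finset.sum_bij (fun i _ => i + s) ?_ ?_ ?_ ?_
    · intro i hi
      rw [mem_Icc] at hi ⊢
      constructor <;> linarith [hi.1, hi.2]
    · intro i _ j _ h
      linarith
    · intro p hp
      rw [mem_Icc] at hp
      exact ⟨p - s, by rw [mem_Icc]; constructor <;> linarith [hp.1, hp.2], by ring⟩
    · intro i _
      rfl
  rw [h1]
  symm
  refine Finset.sum_subset ?_ ?_
  · intro p hp
    rw [mem_Icc] at hp ⊢
    constructor <;> linarith [hp.1, hp.2, hs'.1, hs'.2]
  · intro p _ hp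
    apply hf
    rw [mem_Icc, not_and_or, not_le, not_le] at hp
    rcases hp with h | h
    · rw [lt_abs]; right; linarith
    · rw [lt_abs]; left; exact h

section

variable {ι : Type} [Fintype ι]

/-- the form of `mat2` -/
theorem quad_mat2 (a : ℤ → ℝ) (b : ℤ → ι → ℝ) (c : ℤ → ι → ι → ℝ) (i : ℤ)
    (v : Bool ⊕ ι → ℝ) :
    quad (mat2 a b c i) v = a (i + 2) * v (.inl false) ^ 2 +
      2 * a (i + 1) * v (.inl false) * v (.inl true) + a i * v (.inl true) ^ 2 +
      2 * v (.inl false) * (∑ w, b (i + 1) w * v (.inr w)) +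
      2 * v (.inl true) * (∑ w, b i w * v (.inr w)) +
      ∑ w, ∑ w', v (.inr w) * c i w w' * v (.inr w') := by
  unfold quad
  simp only [Fintype.sum_sum_type, Fintype.sum_bool, mat2, Finset.sum_add_distrib]
  have e1 : ∑ w, v (.inl true) * b i w * v (.inr w) = v (.inl true) * ∑ w, b i w * v (.inr w) := by
    rw [Finset.mul_sum]; exact Finset.sum_congr rfl fun w _ => by ring
  have e2 : ∑ w, v (.inl false) * b (i + 1) w * v (.inr w) =
      v (.inl false) * ∑ w, b (i + 1) w * v (.inr w) := by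
    rw [Finset.mul_sum]; exact Finset.sum_congr rfl fun w _ => by ring
  have e3 : ∑ w, v (.inr w) * b i w * v (.inl true) = v (.inl true) * ∑ w, b i w * v (.inr w) := by
    rw [Finset.mul_sum]; exact Finset.sum_congr rfl fun w _ => by ring
  have e4 : ∑ w, v (.inr w) * b (i + 1) w * v (.inl false) =
      v (.inl false) * ∑ w, b (i + 1) w * v (.inr w) := by
    rw [Finset.mul_sum]; exact Finset.sum_congr rfl fun w _ => by ring
  rw [e1, e2, e3, e4]
  ring

/-- the form of `mat1` -/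
theorem quad_mat1 (A : ℝ) (B : ι → ℝ) (C : ι → ι → ℝ) (v : Option ι → ℝ) :
    quad (mat1 A B C) v = A * v none ^ 2 + 2 * v none * (∑ w, B w * v (some w)) +
      ∑ w, ∑ w', v (some w) * C w w' * v (some w') := by
  unfold quad
  simp only [Fintype.sum_option, mat1, Finset.sum_add_distrib]
  have e1 : ∑ w, v none * B w * v (some w) = v none * ∑ w, B w * v (some w) := by
    rw [Finset.mul_sum]; exact Finset.sum_congr rfl fun w _ => by ring
  have e2 : ∑ w, v (some w) * B w * v none = v none * ∑ w, B w * v (some w) := by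
    rw [Finset.mul_sum]; exact Finset.sum_congr rfl fun w _ => by ring
  rw [e1, e2]
  ring

/-- `Q_i(e₁, 1)` -/
def al (a : ℤ → ℝ) (b : ℤ → ι → ℝ) (o : ι → ℝ) (i : ℤ) : ℝ :=
  a (i + 2) + a (i + 1) + ∑ w, b (i + 1) w * o w

/-- `Q_i(w, 1)` -/
def ga (b : ℤ → ι → ℝ) (c : ℤ → ι → ι → ℝ) (o : ι → ℝ) (i : ℤ) (w : ι) : ℝ :=
  b (i + 1) w + b i w + ∑ w', c i w w' * o w'

/-- the indicator of the allowed directions -/
def one2 (o : ι → ℝ) : Bool ⊕ ι → ℝ
  | .inl _ => 1
  | .inr w => o w

theorem polar_mat2 (a : ℤ → ℝ) (b : ℤ → ι → ℝ) (c : ℤ → ι → ι → ℝ) (o : ι → ℝ) (i : ℤ)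
    (v : Bool ⊕ ι → ℝ) :
    ∑ x, ∑ y, v x * mat2 a b c i x y * one2 o y =
      al a b o i * v (.inl false) + al a b o (i - 1) * v (.inl true) +
        ∑ w, ga b c o i w * v (.inr w) := by
  have e0 : i - 1 + 2 = i + 1 := by ring
  have e0' : i - 1 + 1 = i := by ring
  simp only [Fintype.sum_sum_type, Fintype.sum_bool, mat2, one2, al, ga, e0, e0', mul_one]
  have e1 : ∑ w, v (.inl true) * b i w * o w = v (.inl true) * ∑ w, b i w * o w := by
    rw [Finset.mul_sum]; exact Finset.sum_congr rfl fun w _ => by ring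
  have e2 : ∑ w, v (.inl false) * b (i + 1) w * o w = v (.inl false) * ∑ w, b (i + 1) w * o w := by
    rw [Finset.mul_sum]; exact Finset.sum_congr rfl fun w _ => by ring
  have e3 : ∀ w, ∑ w', v (.inr w) * c i w w' * o w' = (∑ w', c i w w' * o w') * v (.inr w) := by
    intro w
    rw [Finset.sum_mul]; exact Finset.sum_congr rfl fun w' _ => by ring
  have e4 : ∑ w, (v (.inr w) * b i w + v (.inr w) * b (i + 1) w +
      ∑ w', v (.inr w) * c i w w' * o w') =
      ∑ w, (b (i + 1) w + b i w + ∑ w', c i w w' * o w') * v (.inr w) :=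
    Finset.sum_congr rfl fun w _ => by rw [e3 w]; ring
  rw [e1, e2, e4]
  ring

end

/-- PACKET SK-CHAIN -/
theorem chain : GoalChain := by
  classical
  intro ι _ _ ok N a b c ha hb hc hcs hsupp hop hcut
  -- the indicator of the allowed directions
  obtain ⟨o, ho⟩ : ∃ o : ι → ℝ, o = fun w => if ok w then 1 else 0 := ⟨_, rfl⟩
  have ho1 : ∀ w, ok w → o w = 1 := fun w h => by rw [ho]; exact if_pos h
  have ho2 : ∀ w, ¬ ok w → o w = 0 := fun w h => by rw [ho]; exact if_neg h
  have ho0 : ∀ w, 0 ≤ o w := fun w => by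
    by_cases h : ok w
    · rw [ho1 w h]; norm_num
    · rw [ho2 w h]
  have hms : ∀ i x y, mat2 a b c i x y = mat2 a b c i y x := by
    intro i x y
    rcases x with (_ | _) | x <;> rcases y with (_ | _) | y <;> simp [mat2, hcs i _ _]
  have hm0 : ∀ i x y, 0 ≤ mat2 a b c i x y := by
    intro i x y
    rcases x with (_ | _) | x <;> rcases y with (_ | _) | y <;> simp [mat2, ha, hb, hc]
  have hone1 : ∀ x, ok2 ok x → one2 o x = 1 := by
    intro x hx
    rcases x with x | x
    · rfl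
    · exact ho1 x hx
  have hone2 : ∀ x, ¬ ok2 ok x → one2 o x = 0 := by
    intro x hx
    rcases x with x | x
    · exact absurd trivial hx
    · exact ho2 x hx
  have hone0 : ∀ x, 0 ≤ one2 o x := by
    intro x
    rcases x with x | x
    · exact zero_le_one
    · exact ho0 x
  -- dead indices
  have hdead : ∀ i, (¬ ∃ α β, ok2 ok α ∧ ok2 ok β ∧ mat2 a b c i α β ≠ 0) →
      ∀ v : Bool ⊕ ι → ℝ, (∀ x, ¬ ok2 ok x → v x = 0) →
        ∑ x, ∑ y, v x * mat2 a b c i x y * one2 o y = 0 := by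
    intro i hi v hv
    refine Finset.sum_eq_zero fun x _ => Finset.sum_eq_zero fun y _ => ?_
    by_cases hx : ok2 ok x
    · by_cases hy : ok2 ok y
      · have : mat2 a b c i x y = 0 := by
          by_contra h
          exact hi ⟨x, y, hx, hy, h⟩
        rw [this]; ring
      · rw [hone2 y hy]; ring
    · rw [hv x hx]; ring
  obtain ⟨K, hK⟩ : ∃ K : ℤ, K = (N : ℤ) + 3 := ⟨_, rfl⟩
  refine ⟨fun d => match d with
    | none => ∑ i ∈ Icc (-K) K, al a b o (i - 1)
    | some w => ∑ i ∈ Icc (-K) K, ga b c o i w, ?_⟩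
  intro v hv hl
  have hu : ∀ w, ¬ ok w → v (some w) = 0 := fun w h => hv (some w) h
  -- the terms
  obtain ⟨t, ht⟩ : ∃ t : ℤ → ℝ, t = fun i => al a b o (i - 1) * v none +
      ∑ w, ga b c o i w * v (some w) := ⟨_, rfl⟩
  have htot : ∑ i ∈ Icc (-K) K, t i = 0 := by
    rw [ht, Finset.sum_add_distrib, ← Finset.sum_mul, Finset.sum_comm]
    simp only [← Finset.sum_mul]
    rw [Fintype.sum_option] at hl
    exact hl
  have htlive : ∀ i, t i ≠ 0 → ∃ α β, ok2 ok α ∧ ok2 ok β ∧ mat2 a b c i α β ≠ 0 := by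
    intro i hi
    by_contra h
    apply hi
    have h1 := hdead i h (fun x => match x with
      | .inl false => 0
      | .inl true => v none
      | .inr w => v (some w)) (by
        intro x hx
        rcases x with (_ | _) | x
        · rfl
        · exact absurd trivial hx
        · exact hu x hx)
    rw [polar_mat2] at h1
    rw [ht]
    simp only [mul_zero, zero_add] at h1
    exact h1
  obtain ⟨φ, hφ⟩ : ∃ φ : ℤ → ℝ, φ = fun i => - ∑ j ∈ Icc (-K) i, t j := ⟨_, rfl⟩
  have hφs : ∀ i, -K ≤ i → φ i = φ (i - 1) - t i := by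
    intro i hi
    rw [hφ]
    have : Icc (-K) i = insert i (Icc (-K) (i - 1)) := by
      ext j
      simp only [mem_Icc, mem_insert]
      constructor
      · rintro ⟨h1, h2⟩
        rcases h2.lt_or_eq with h | h
        · right; constructor
          · exact h1
          · linarith [Int.add_one_le_iff.2 h]
        · left; exact h
      · rintro (h | ⟨h1, h2⟩)
        · rw [h]; exact ⟨hi, le_refl _⟩
        · exact ⟨h1, by linarith⟩
    simp only
    rw [this, Finset.sum_insert (by simp)]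
    ring
  have hαφ : ∀ i, i ≤ K → al a b o i = 0 → φ i = 0 := by
    intro i hiK hi
    by_contra hne
    have h1 : ∑ j ∈ Icc (-K) i, t j ≠ 0 := by
      intro h
      apply hne
      rw [hφ]
      simp only
      rw [h, neg_zero]
    obtain ⟨j, hj, htj⟩ := Finset.exists_ne_zero_of_sum_ne_zero h1
    rw [mem_Icc] at hj
    have h2 : ∑ j ∈ Icc (i + 1) K, t j ≠ 0 := by
      intro h
      apply h1
      have h3 : Icc (-K) K = Icc (-K) i ∪ Icc (i + 1) K := by
        ext x
        simp only [mem_Icc, mem_union]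
        constructor
        · rintro ⟨h1, h2⟩
          rcases le_or_gt x i with h | h
          · left; exact ⟨h1, h⟩
          · right; exact ⟨Int.add_one_le_iff.2 h, h2⟩
        · rintro (⟨h1, h2⟩ | ⟨h1, h2⟩)
          · exact ⟨h1, by linarith⟩
          · exact ⟨by linarith [hj.1, hj.2], h2⟩
      have h4 : Disjoint (Icc (-K) i) (Icc (i + 1) K) := by
        rw [Finset.disjoint_left]
        intro x hx hx'
        rw [mem_Icc] at hx hx'
        linarith [hx.2, hx'.1]
      rw [h3, Finset.sum_union h4, h, add_zero] at htot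
      exact htot
    obtain ⟨j', hj', htj'⟩ := Finset.exists_ne_zero_of_sum_ne_zero h2
    rw [mem_Icc] at hj'
    obtain ⟨β, hβ, hβ0⟩ := hcut j i j' hj.2 (by linarith [hj'.1]) (htlive j htj) (htlive j' htj')
    have h5 : al a b o i = ∑ y, mat2 a b c i (.inl false) y * one2 o y := by
      rw [Fintype.sum_sum_type, Fintype.sum_bool]
      simp only [mat2, one2, al]
      ring
    rw [h5] at hi
    have h6 := (Finset.sum_eq_zero_iff_of_nonneg (fun y _ =>
      mul_nonneg (hm0 i (.inl false) y) (hone0 y))).1 hi β (mem_univ β)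
    rw [hone1 β hβ, mul_one] at h6
    exact hβ0 h6
  obtain ⟨μ, hμ⟩ : ∃ μ : ℤ → ℝ, μ = fun i => φ i / al a b o i := ⟨_, rfl⟩
  have hαμ : ∀ i, i ≤ K → al a b o i * μ i = φ i := by
    intro i hi
    rw [hμ]
    simp only
    by_cases h : al a b o i = 0
    · rw [hαφ i hi h]; simp
    · rw [mul_div_cancel₀ _ h]
  -- the vectors
  obtain ⟨V, hV⟩ : ∃ V : ℤ → Bool ⊕ ι → ℝ, V = fun i x => match x with
      | .inl false => μ i
      | .inl true => v none - μ (i - 1)
      | .inr w => v (some w) := ⟨_, rfl⟩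
  have hQ : ∀ i ∈ Icc (-K) K, quad (mat2 a b c i) (V i) ≤ 0 := by
    intro i hi
    rw [mem_Icc] at hi
    refine onePos_one (ok2 ok) (mat2 a b c i) (hms i) (hm0 i) (one2 o) hone1 hone2 (hop i) (V i)
      ?_ ?_
    · intro x hx
      rcases x with (_ | _) | x
      · exact absurd trivial hx
      · exact absurd trivial hx
      · rw [hV]; exact hu x hx
    · rw [polar_mat2, hV]
      simp only
      have e1 := hαμ i hi.2
      have e2 := hαμ (i - 1) (by linarith [hi.2])
      have e3 := hφs i hi.1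
      have e4 : t i = al a b o (i - 1) * v none + ∑ w, ga b c o i w * v (some w) := by rw [ht]
      linear_combination e1 - e2 + e3 - e4
  have hsum : ∑ i ∈ Icc (-K) K, quad (mat2 a b c i) (V i) ≤ 0 := Finset.sum_nonpos hQ
  -- the identity
  obtain ⟨F2, hF2⟩ : ∃ F : ℤ → ℝ, F = fun p => a p * μ (p - 2) ^ 2 := ⟨_, rfl⟩
  obtain ⟨F1, hF1⟩ : ∃ F : ℤ → ℝ, F = fun p => 2 * a p * μ (p - 1) * (v none - μ (p - 2)) +
      2 * μ (p - 1) * (∑ w, b p w * v (some w)) := ⟨_, rfl⟩
  obtain ⟨F0, hF0⟩ : ∃ F : ℤ → ℝ, F = fun p => a p * (v none - μ (p - 1)) ^ 2 +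
      2 * (v none - μ (p - 1)) * (∑ w, b p w * v (some w)) +
      ∑ w, ∑ w', v (some w) * c p w w' * v (some w') := ⟨_, rfl⟩
  have hqi : ∀ i, quad (mat2 a b c i) (V i) = F2 (i + 2) + F1 (i + 1) + F0 (i + 0) := by
    intro i
    rw [quad_mat2, hF2, hF1, hF0, hV]
    have e1 : i + 2 - 2 = i := by ring
    have e2 : i + 1 - 1 = i := by ring
    have e3 : i + 1 - 2 = i - 1 := by ring
    simp only [e1, e2, e3, add_zero]
    ring
  have h2 := sum_shift N F2 (fun p hp => by rw [hF2]; simp only; rw [(hsupp p hp).1]; ring) 2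
    (by norm_num)
  have h1 := sum_shift N F1 (fun p hp => by
    rw [hF1]; simp only; rw [(hsupp p hp).1, Finset.sum_eq_zero (fun w _ => by
      rw [(hsupp p hp).2.1 w, zero_mul])]; ring) 1 (by norm_num)
  have h0 := sum_shift N F0 (fun p hp => by
    rw [hF0]; simp only; rw [(hsupp p hp).1, Finset.sum_eq_zero (fun w _ => by
      rw [(hsupp p hp).2.1 w, zero_mul]), Finset.sum_eq_zero (fun w _ =>
        Finset.sum_eq_zero fun w' _ => by rw [(hsupp p hp).2.2 w w']; ring)]; ring) 0
    (by norm_num)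
  have hid : quad (mat1 (∑ p ∈ Icc (-(N : ℤ)) N, a p) (fun w => ∑ p ∈ Icc (-(N : ℤ)) N, b p w)
      (fun w w' => ∑ p ∈ Icc (-(N : ℤ)) N, c p w w')) v =
      ∑ p ∈ Icc (-(N : ℤ)) N, (a p * v none ^ 2 + 2 * v none * (∑ w, b p w * v (some w)) +
        ∑ w, ∑ w', v (some w) * c p w w' * v (some w')) := by
    rw [quad_mat1, Finset.sum_add_distrib, Finset.sum_add_distrib, ← Finset.sum_mul,
      ← Finset.mul_sum]
    have e1 : ∑ w, (∑ p ∈ Icc (-(N : ℤ)) N, b p w) * v (some w) =
        ∑ p ∈ Icc (-(N : ℤ)) N, ∑ w, b p w * v (some w) := by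
      rw [Finset.sum_comm]
      exact Finset.sum_congr rfl fun w _ => by rw [Finset.sum_mul]
    have e2 : ∑ w, ∑ w', v (some w) * (∑ p ∈ Icc (-(N : ℤ)) N, c p w w') * v (some w') =
        ∑ p ∈ Icc (-(N : ℤ)) N, ∑ w, ∑ w', v (some w) * c p w w' * v (some w') := by
      refine Eq.trans ?_ (Finset.sum_comm (s := univ) (t := Icc (-(N : ℤ)) N)
        (f := fun w p => ∑ w', v (some w) * c p w w' * v (some w')))
      refine Finset.sum_congr rfl fun w _ => ?_
      refine Eq.trans ?_ (Finset.sum_comm (s := univ) (t := Icc (-(N : ℤ)) N)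
        (f := fun w' p => v (some w) * c p w w' * v (some w')))
      exact Finset.sum_congr rfl fun w' _ => by rw [Finset.mul_sum, Finset.sum_mul]
    rw [e1, e2]
  have hsum2 : ∑ i ∈ Icc (-K) K, quad (mat2 a b c i) (V i) =
      ∑ p ∈ Icc (-(N : ℤ)) N, (F2 p + F1 p + F0 p) := by
    rw [Finset.sum_congr rfl fun i _ => hqi i, Finset.sum_add_distrib, Finset.sum_add_distrib, hK,
      h2, h1, h0, ← Finset.sum_add_distrib, ← Finset.sum_add_distrib]
  rw [hid]
  have h3 : ∑ p ∈ Icc (-(N : ℤ)) N, (F2 p + F1 p + F0 p) ≤ 0 := by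
    rw [← hsum2]; exact hsum
  refine le_trans (Finset.sum_le_sum (f := fun p => (a p * v none ^ 2 + 2 * v none *
    (∑ w, b p w * v (some w)) + ∑ w, ∑ w', v (some w) * c p w w' * v (some w')))
    (g := fun p => F2 p + F1 p + F0 p) fun p _ => ?_) h3
  rw [hF2, hF1, hF0]
  simp only
  nlinarith [mul_nonneg (ha p) (sq_nonneg (μ (p - 1) - μ (p - 2)))]

end Pool.Agent.Helper23.SK
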